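import Mathlib
import Pool.Agent.Lib.MP_281388_al.OddPrime
import Pool.Agent.Lib.MP_281388_al.OddSmall

set_option autoImplicit false

open Equiv Equiv.Perm

namespace Pool.Agent.Results.MP_281388_al.OddOrder

open Pool.Agent.Lib.MP_281388_al.Odd

theorem full_of_orderOf {G : Type*} [Group G] [Finite G] (hG : Odd (Nat.card G)) (x : G) (m : ℕ)
    [NeZero m] (hx : orderOf x = m) (h : Full (Multiplicative (ZMod m))) : Full G := by
  have hc : Nat.card (Subgroup.zpowers x) = m := by rw [Nat.card_zpowers, hx]
  let e : Multiplicative (ZMod m) ≃* Subgroup.zpowers x :=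
    (MulEquiv.refl _).trans (hc ▸ (zmodCyclicMulEquiv (G := Subgroup.zpowers x) inferInstance))
  exact Full.of_injective hG ((Subgroup.zpowers x).subtype.comp e.toMonoidHom)
    ((Subgroup.subtype_injective _).comp e.injective) h

theorem full_of_prime_sq {G : Type*} [Group G] [Finite G] (hG : Odd (Nat.card G)) (p : ℕ)
    [hp : Fact p.Prime] (hdvd : p ^ 2 ∣ Nat.card G)
    (h1 : Full (Multiplicative (ZMod (p ^ 2))))
    (h2 : Full (Multiplicative (ZMod p × ZMod p))) : Full G := by
  classical
  obtain ⟨K, hK⟩ := Sylow.exists_subgroup_card_pow_prime p hdvd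
  have hcomm : IsMulCommutative K := IsPGroup.isMulCommutative_of_card_eq_prime_sq hK
  have hcomm' : ∀ a b : K, a * b = b * a := hcomm.is_comm.comm
  have hKodd : Odd (Nat.card K) := Odd.of_dvd_nat hG (Subgroup.card_subgroup_dvd_card K)
  have hpp : p.Prime := hp.out
  refine Full.of_injective hG K.subtype (Subgroup.subtype_injective _) ?_
  by_cases hcyc : ∃ x : K, orderOf x = p ^ 2
  · obtain ⟨x, hx⟩ := hcyc
    exact full_of_orderOf hKodd x (p ^ 2) hx h1
  push Not at hcyc
  have hord : ∀ x : K, x ≠ 1 → orderOf x = p := by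
    intro x hx
    have hd : orderOf x ∣ p ^ 2 := hK ▸ orderOf_dvd_natCard x
    obtain ⟨k, hk, hk2⟩ := (Nat.dvd_prime_pow hpp).1 hd
    interval_cases k
    · exact absurd (orderOf_eq_one_iff.1 (by simpa using hk2)) hx
    · simpa using hk2
    · exact absurd hk2 (hcyc x)
  have hbig : 1 < Nat.card K := by rw [hK]; exact Nat.one_lt_pow (by norm_num) hpp.one_lt
  have : Nontrivial K := Finite.one_lt_card_iff_nontrivial.1 hbig
  obtain ⟨x, hx⟩ := exists_ne (1 : K)
  have hxo := hord x hx
  have hy : ∃ y : K, y ∉ Subgroup.zpowers x := by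
    by_contra hcon
    push Not at hcon
    have htop : Subgroup.zpowers x = ⊤ := by
      rw [eq_top_iff]; intro y _; exact hcon y
    have hc : Nat.card (Subgroup.zpowers x) = p := by rw [Nat.card_zpowers, hxo]
    rw [htop, Subgroup.card_top, hK] at hc
    have : p ^ 2 > p := by
      have := hpp.one_lt
      nlinarith
    omega
  obtain ⟨y, hy⟩ := hy
  have hy1 : y ≠ 1 := by
    rintro rfl
    exact hy (Subgroup.one_mem _)
  have hyo := hord y hy1
  have hcx : Nat.card (Subgroup.zpowers x) = p := by rw [Nat.card_zpowers, hxo]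
  have hcy : Nat.card (Subgroup.zpowers y) = p := by rw [Nat.card_zpowers, hyo]
  let ex : Multiplicative (ZMod p) ≃* Subgroup.zpowers x :=
    (MulEquiv.refl _).trans (hcx ▸ (zmodCyclicMulEquiv (G := Subgroup.zpowers x) inferInstance))
  let ey : Multiplicative (ZMod p) ≃* Subgroup.zpowers y :=
    (MulEquiv.refl _).trans (hcy ▸ (zmodCyclicMulEquiv (G := Subgroup.zpowers y) inferInstance))
  let fx : Multiplicative (ZMod p) →* K := (Subgroup.zpowers x).subtype.comp ex.toMonoidHom
  let fy : Multiplicative (ZMod p) →* K := (Subgroup.zpowers y).subtype.comp ey.toMonoidHom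
  let F : Multiplicative (ZMod p) × Multiplicative (ZMod p) →* K :=
    fx.noncommCoprod fy (fun m n => hcomm' _ _)
  have hF : Function.Injective F := by
    rw [injective_iff_map_eq_one]
    rintro ⟨u, v⟩ huv
    have h3 : fx u * fy v = 1 := huv
    have hmx : fx u ∈ Subgroup.zpowers x := (ex u).2
    have hmy : fy v ∈ Subgroup.zpowers y := (ey v).2
    have h4 : fy v = (fx u)⁻¹ := by
      rw [eq_comm, inv_eq_iff_mul_eq_one]; exact h3
    have h5 : fy v ∈ Subgroup.zpowers x := by
      rw [h4]; exact Subgroup.inv_mem _ hmx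
    have h6 : fy v = 1 := by
      by_contra hne
      have h7 : orderOf (fy v) = p := hord _ hne
      have h8 : Subgroup.zpowers (fy v) = Subgroup.zpowers y := by
        apply Subgroup.eq_of_le_of_card_ge (Subgroup.zpowers_le.2 hmy)
        rw [hcy, Nat.card_zpowers, h7]
      apply hy
      have : y ∈ Subgroup.zpowers (fy v) := by rw [h8]; exact Subgroup.mem_zpowers y
      exact (Subgroup.zpowers_le.2 h5) this
    have h9 : fx u = 1 := by rw [h6, mul_one] at h3; exact h3
    have h10 : v = 1 := by
      apply ey.injective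
      apply Subtype.ext
      rw [map_one]
      exact h6
    have h11 : u = 1 := by
      apply ex.injective
      apply Subtype.ext
      rw [map_one]
      exact h9
    rw [h10, h11]; rfl
  have hinj2 : Function.Injective
      (F.comp (MulEquiv.prodMultiplicative (ZMod p) (ZMod p)).toMonoidHom) :=
    hF.comp (MulEquiv.prodMultiplicative (ZMod p) (ZMod p)).injective
  exact Full.of_injective hKodd _ hinj2 h2

theorem exists_orderOf_fifteen {G : Type*} [Group G] [Finite G] (hG : Nat.card G = 15) :
    ∃ x : G, orderOf x = 15 := by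
  classical
  have f3 : (Nat.card G).factorization 3 = 1 := by
    rw [hG, show 15 = 3 * 5 from rfl, Nat.factorization_mul (by norm_num) (by norm_num),
      Nat.Prime.factorization (by norm_num), Nat.Prime.factorization (by norm_num)]
    simp
  have f5 : (Nat.card G).factorization 5 = 1 := by
    rw [hG, show 15 = 3 * 5 from rfl, Nat.factorization_mul (by norm_num) (by norm_num),
      Nat.Prime.factorization (by norm_num), Nat.Prime.factorization (by norm_num)]
    simp
  have : Fact (Nat.Prime 3) := ⟨by norm_num⟩
  have : Fact (Nat.Prime 5) := ⟨by norm_num⟩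
  obtain ⟨P⟩ : Nonempty (Sylow 3 G) := inferInstance
  obtain ⟨R⟩ : Nonempty (Sylow 5 G) := inferInstance
  have cP : Nat.card P = 3 := by rw [Sylow.card_eq_multiplicity, f3]; norm_num
  have cR : Nat.card R = 5 := by rw [Sylow.card_eq_multiplicity, f5]; norm_num
  have iP : (P : Subgroup G).index = 5 := by
    have := (P : Subgroup G).card_mul_index
    rw [hG] at this
    have h : Nat.card (P : Subgroup G) = 3 := cP
    rw [h] at this
    omega
  have iR : (R : Subgroup G).index = 3 := by
    have := (R : Subgroup G).card_mul_index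
    rw [hG] at this
    have h : Nat.card (R : Subgroup G) = 5 := cR
    rw [h] at this
    omega
  have nP : Nat.card (Sylow 3 G) = 1 := by
    have h1 := card_sylow_modEq_one 3 G
    have h2 : Nat.card (Sylow 3 G) ∣ 5 := iP ▸ P.card_dvd_index
    rcases (Nat.dvd_prime (by norm_num)).1 h2 with h | h
    · exact h
    · rw [h] at h1
      exact absurd h1 (by decide)
  have nR : Nat.card (Sylow 5 G) = 1 := by
    have h1 := card_sylow_modEq_one 5 G
    have h2 : Nat.card (Sylow 5 G) ∣ 3 := iR ▸ R.card_dvd_index
    rcases (Nat.dvd_prime (by norm_num)).1 h2 with h | h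
    · exact h
    · rw [h] at h1
      exact absurd h1 (by decide)
  have norP : (P : Subgroup G).Normal := by
    have : Subsingleton (Sylow 3 G) := (Nat.card_eq_one_iff_unique.1 nP).1
    exact Sylow.normal_of_subsingleton P
  have norR : (R : Subgroup G).Normal := by
    have : Subsingleton (Sylow 5 G) := (Nat.card_eq_one_iff_unique.1 nR).1
    exact Sylow.normal_of_subsingleton R
  have hdisj : Disjoint (P : Subgroup G) (R : Subgroup G) := by
    apply Subgroup.disjoint_of_coprime_natCard
    have h : Nat.card (P : Subgroup G) = 3 := cP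
    have h' : Nat.card (R : Subgroup G) = 5 := cR
    rw [h, h']; norm_num
  obtain ⟨x, hx⟩ := exists_prime_orderOf_dvd_card' (G := (P : Subgroup G)) 3
    (by have h : Nat.card (P : Subgroup G) = 3 := cP
        rw [h])
  obtain ⟨y, hy⟩ := exists_prime_orderOf_dvd_card' (G := (R : Subgroup G)) 5
    (by have h : Nat.card (R : Subgroup G) = 5 := cR
        rw [h])
  have hxy : Commute (x : G) (y : G) :=
    Subgroup.commute_of_normal_of_disjoint _ _ norP norR hdisj _ _ x.2 y.2
  refine ⟨(x : G) * y, ?_⟩
  have hcop : (orderOf (x : G)).Coprime (orderOf (y : G)) := by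
    rw [Subgroup.orderOf_coe, Subgroup.orderOf_coe, hx, hy]; norm_num
  rw [hxy.orderOf_mul_eq_mul_orderOf_of_coprime hcop, Subgroup.orderOf_coe, Subgroup.orderOf_coe,
    hx, hy]

theorem full_of_odd {G : Type*} [Group G] [Finite G] (hG : Odd (Nat.card G))
    (h7 : 7 ≤ Nat.card G) : Full G := by
  classical
  by_cases hbig : ∃ p : ℕ, p.Prime ∧ 7 ≤ p ∧ p ∣ Nat.card G
  · obtain ⟨p, hp, hp7, hpd⟩ := hbig
    have : Fact p.Prime := ⟨hp⟩
    obtain ⟨x, hx⟩ := exists_prime_orderOf_dvd_card' (G := G) p hpd
    exact full_of_orderOf hG x p hx (full_zmod_prime hp7)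
  by_cases h9 : 3 ^ 2 ∣ Nat.card G
  · have : Fact (Nat.Prime 3) := ⟨by norm_num⟩
    exact full_of_prime_sq hG 3 h9 full_Z9 full_Z3Z3
  by_cases h25 : 5 ^ 2 ∣ Nat.card G
  · have : Fact (Nat.Prime 5) := ⟨by norm_num⟩
    exact full_of_prime_sq hG 5 h25 full_Z25 full_Z5Z5
  have h15 : Nat.card G = 15 := by
    push Not at hbig
    set N := Nat.card G with hN
    have hN0 : N ≠ 0 := by omega
    have hdvd : N ∣ 15 := by
      rw [← Nat.factorization_le_iff_dvd hN0 (by norm_num)]
      intro q
      by_cases hq : q.Prime
      swap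
      · rw [Nat.factorization_eq_zero_of_not_prime _ hq]; exact Nat.zero_le _
      by_cases hqN : q ∣ N
      swap
      · rw [Nat.factorization_eq_zero_of_not_dvd hqN]; exact Nat.zero_le _
      have hq7 : q < 7 := by
        by_contra h
        exact hbig q hq (by omega) hqN
      have hqodd : Odd q := Odd.of_dvd_nat hG hqN
      have hq2 := hq.two_le
      have hle : ∀ r, r.Prime → ¬ r ^ 2 ∣ N → N.factorization r ≤ 1 := by
        intro r hr hr2
        by_contra hcon
        exact hr2 ((hr.pow_dvd_iff_le_factorization hN0).2 (by omega))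
      interval_cases q
      · exact absurd hqodd (by decide)
      · refine (hle 3 hq h9).trans ?_
        exact (hq.pow_dvd_iff_le_factorization (by norm_num)).1 (by norm_num)
      · exact absurd hqodd (by decide)
      · refine (hle 5 hq h25).trans ?_
        exact (hq.pow_dvd_iff_le_factorization (by norm_num)).1 (by norm_num)
      · exact absurd hqodd (by decide)
    have hle := Nat.le_of_dvd (by norm_num) hdvd
    interval_cases N <;> first | rfl | (exfalso; revert hdvd; decide)
  obtain ⟨x, hx⟩ := exists_orderOf_fifteen h15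
  exact full_of_orderOf hG x 15 hx full_Z15

/-- Every finite group of odd order at least `7` has complete mappings realising all four
combinations of signs of `f` and of its orthomorphism `x ↦ x * f x`. -/
theorem result (G : Type*) [Group G] [Fintype G] [DecidableEq G]
    (hodd : Odd (Fintype.card G)) (h7 : 7 ≤ Fintype.card G) :
    ∀ a b : ℤˣ, ∃ f : Equiv.Perm G,
      ∃ hf : Function.Bijective (fun x : G => x * f x),
        Equiv.Perm.sign f = a ∧
        Equiv.Perm.sign (Equiv.ofBijective (fun x : G => x * f x) hf) = b := by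
  intro a b
  rw [← Nat.card_eq_fintype_card] at hodd h7
  exact (PP_iff' a b).1 (full_of_odd hodd h7 a b)

end Pool.Agent.Results.MP_281388_al.OddOrder
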