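import Mathlib
import Pool.Agent.Lib.MP_281388_al.Main

/-!
# All four parity pairs of complete mappings and their orthomorphisms

For all large finite groups `G` which satisfy the Hall-Paige condition, every pair of parities is
attained by a complete mapping and its orthomorphism; asymptotically each of the four pairs is
attained by a quarter of the complete mappings.
-/

set_option autoImplicit false

open Equiv

namespace Pool.Agent.Results.MP_281388_al.ParityPairs

/-- The parity `π(σ)` of a permutation `σ` of a finite set: `0` if `σ` is even, `1` if it is odd. -/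
def parity {X : Type*} [Fintype X] [DecidableEq X] (σ : Perm X) : Fin 2 :=
  if Perm.sign σ = 1 then 0 else 1

/-- The Hall-Paige condition: the Sylow `2`-subgroups of `G` are trivial or not cyclic. -/
def HallPaige (G : Type*) [Group G] : Prop :=
  ∀ S : Sylow 2 G, Nat.card (S : Subgroup G) = 1 ∨ ¬ IsCyclic (S : Subgroup G)

/-- `IsCompleteMapping f g`: `f` is a complete mapping of the group `G`, that is a bijection of `G`
for which `x ↦ x f(x)` is also a bijection, and `g` is its orthomorphism `x ↦ x f(x)`. -/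
def IsCompleteMapping {G : Type*} [Group G] (f g : Perm G) : Prop :=
  ∀ x, g x = x * f x

/-- The set `𝒫(G)` of the pairs (parity of `f`, parity of the orthomorphism of `f`) for the complete
mappings `f` of `G`. -/
def parityPairs (G : Type*) [Group G] [Fintype G] [DecidableEq G] : Set (Fin 2 × Fin 2) :=
  {q | ∃ f g : Perm G, IsCompleteMapping f g ∧ q = (parity f, parity g)}

/-- The number of complete mappings of `G`. -/
noncomputable def numCM (G : Type*) [Group G] : ℕ :=
  Nat.card {f : Perm G // ∃ g : Perm G, IsCompleteMapping f g}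

/-- The number of complete mappings `f` of `G` such that `f` has parity `a` and its orthomorphism
has parity `b`. -/
noncomputable def numPair (G : Type*) [Group G] [Fintype G] [DecidableEq G] (a b : Fin 2) : ℕ :=
  Nat.card {f : Perm G // ∃ g : Perm G, IsCompleteMapping f g ∧ parity f = a ∧ parity g = b}

open Pool.Agent.Lib.MP_281388_al

private theorem mem_CM_iff {G : Type*} [Group G] [Fintype G] [DecidableEq G] (f : Perm G) :
    f ∈ CM G ↔ ∃ g : Perm G, IsCompleteMapping f g := by
  rw [mem_CM]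
  constructor
  · intro h
    exact ⟨Equiv.ofBijective _ h, fun x => rfl⟩
  · rintro ⟨g, hg⟩
    have : (fun x : G => x * f x) = g := funext fun x => (hg x).symm
    rw [this]
    exact g.bijective

private theorem numCM_eq (G : Type*) [Group G] [Fintype G] [DecidableEq G] :
    numCM G = (CM G).card := by
  classical
  unfold numCM
  rw [Nat.card_eq_fintype_card, Fintype.card_subtype]
  congr 1
  ext f
  simp only [Finset.mem_filter, Finset.mem_univ, true_and]
  exact (mem_CM_iff f).symm

private theorem numPair_eq (G : Type*) [Group G] [Fintype G] [DecidableEq G] (a b : Fin 2) :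
    numPair G a b = ((CM G).filter fun f => parity f = a ∧ parity (orth f) = b).card := by
  classical
  unfold numPair
  rw [Nat.card_eq_fintype_card, Fintype.card_subtype]
  congr 1
  ext f
  simp only [Finset.mem_filter, Finset.mem_univ, true_and]
  constructor
  · rintro ⟨g, hg, h1, h2⟩
    have hf : f ∈ CM G := (mem_CM_iff f).2 ⟨g, hg⟩
    have he : orth f = g := by
      ext x
      rw [orth_apply hf, hg]
    exact ⟨hf, h1, by rw [he]; exact h2⟩
  · rintro ⟨hf, h1, h2⟩
    exact ⟨orth f, fun x => orth_apply hf x, h1, h2⟩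

/-- the sign of a parity -/
private def sg (a : Fin 2) : ℝ := if a = 0 then 1 else -1

private theorem sg_abs (a : Fin 2) : |sg a| = 1 := by
  unfold sg
  split_ifs <;> simp

private theorem sg_ind {X : Type*} [Fintype X] [DecidableEq X] (σ : Perm X) (a : Fin 2) :
    1 + sg a * ((Perm.sign σ : ℤ) : ℝ) = if parity σ = a then 2 else 0 := by
  unfold sg parity
  rcases Int.units_eq_one_or (Perm.sign σ) with h | h <;> rw [h] <;> fin_cases a <;>
    simp <;> norm_num

private theorem count_pair (G : Type*) [Group G] [Fintype G] [DecidableEq G] (a b : Fin 2) :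
    |4 * (numPair G a b : ℝ) - numCM G| ≤
      3 * √((Fintype.card G : ℝ) ^ Fintype.card G) := by
  classical
  have h1 : ∑ f ∈ CM G, (1 + sg a * ((Perm.sign f : ℤ) : ℝ)) *
      (1 + sg b * ((Perm.sign (orth f) : ℤ) : ℝ)) = 4 * (numPair G a b : ℝ) := by
    rw [numPair_eq, Finset.card_filter, Nat.cast_sum, Finset.mul_sum]
    refine Finset.sum_congr rfl fun f _ => ?_
    rw [sg_ind, sg_ind]
    by_cases h2 : parity f = a <;> by_cases h3 : parity (orth f) = b <;> simp [h2, h3]
    norm_num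
  have hexp : ∑ f ∈ CM G, (1 + sg a * ((Perm.sign f : ℤ) : ℝ)) *
      (1 + sg b * ((Perm.sign (orth f) : ℤ) : ℝ)) =
      ((CM G).card : ℝ) + sg a * sgnCount (fun g h : G => g * h) +
        sg b * sgnCount (fun g h : G => g⁻¹ * h) +
        (sg a * sg b) * sgnCount (fun g h : G => h * g⁻¹) := by
    rw [← sum_sign_f, ← sum_sign_orth, ← sum_sign_both, Finset.mul_sum, Finset.mul_sum,
      Finset.mul_sum, Finset.card_eq_sum_ones, Nat.cast_sum, ← Finset.sum_add_distrib,
      ← Finset.sum_add_distrib, ← Finset.sum_add_distrib]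
    refine Finset.sum_congr rfl fun f _ => ?_
    push_cast
    ring
  have b1 := sgnCount_le (fun g h : G => g * h)
  have b2 := sgnCount_le (fun g h : G => g⁻¹ * h)
  have b3 := sgnCount_le (fun g h : G => h * g⁻¹)
  obtain ⟨B, hB⟩ : ∃ B, B = √((Fintype.card G : ℝ) ^ Fintype.card G) := ⟨_, rfl⟩
  rw [← hB] at b1 b2 b3 ⊢
  have c1 : |sg a * sgnCount (fun g h : G => g * h)| ≤ B := by
    rw [abs_mul, sg_abs, one_mul]; exact b1
  have c2 : |sg b * sgnCount (fun g h : G => g⁻¹ * h)| ≤ B := by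
    rw [abs_mul, sg_abs, one_mul]; exact b2
  have c3 : |(sg a * sg b) * sgnCount (fun g h : G => h * g⁻¹)| ≤ B := by
    rw [abs_mul, abs_mul, sg_abs, sg_abs, one_mul, one_mul]; exact b3
  have d1 := abs_le.1 c1
  have d2 := abs_le.1 c2
  have d3 := abs_le.1 c3
  rw [h1] at hexp
  rw [hexp, numCM_eq, abs_le]
  constructor <;> linarith [d1.1, d1.2, d2.1, d2.2, d3.1, d3.2]

/-- isomorphic groups have the same number of complete mappings -/
private theorem numCM_congr {G G' : Type*} [Group G] [Group G'] (φ : G' ≃* G) :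
    numCM G' = numCM G := by
  unfold numCM
  refine Nat.card_congr (Equiv.subtypeEquiv φ.toEquiv.permCongr fun f => ?_)
  constructor
  · rintro ⟨g, hg⟩
    refine ⟨φ.toEquiv.permCongr g, fun x => ?_⟩
    change φ (g (φ.symm x)) = x * φ (f (φ.symm x))
    rw [hg, map_mul, MulEquiv.apply_symm_apply]
  · rintro ⟨g, hg⟩
    refine ⟨φ.toEquiv.permCongr.symm g, fun x => ?_⟩
    change φ.symm (g (φ x)) = x * f x
    have h1 : g (φ x) = φ x * φ (f (φ.symm (φ x))) := hg (φ x)
    rw [h1]
    simp only [map_mul, MulEquiv.symm_apply_apply]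

/-- the Hall-Paige condition for an isomorphic group, in the form used in the library -/
private theorem sylow_congr {G G' : Type*} [Group G] [Group G'] [Finite G] [Finite G']
    (φ : G' ≃* G) (h : HallPaige G) (P : Sylow 2 G') :
    (P : Subgroup G') = ⊥ ∨ ¬ IsCyclic (P : Subgroup G') := by
  have h1 := h (P.mapSurjective (f := φ.toMonoidHom) φ.surjective)
  rw [Sylow.coe_mapSurjective] at h1
  let e := Subgroup.equivMapOfInjective (P : Subgroup G') φ.toMonoidHom φ.injective
  rcases h1 with h1 | h1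
  · left
    rw [← Nat.card_congr e.toEquiv] at h1
    exact Subgroup.card_eq_one.1 h1
  · right
    intro h2
    exact h1 ((MulEquiv.isCyclic e).1 h2)

universe u

private theorem lower : ∃ N : ℕ, ∀ (G : Type u) [Group G] [Fintype G] [DecidableEq G],
    HallPaige G → N ≤ Fintype.card G →
    (0.3 : ℝ) ≤ (Fintype.card G : ℝ) ^ (Fintype.card G) * (numCM G : ℝ) /
      ((Fintype.card G).factorial : ℝ) ^ 2 := by
  obtain ⟨N, hN⟩ := analytic
  refine ⟨N, fun G _ _ _ hHP hG => ?_⟩
  classical
  let φ : Shrink.{0} G ≃* G := Shrink.mulEquiv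
  let _ : Fintype (Shrink.{0} G) := Fintype.ofEquiv G φ.symm.toEquiv
  have hc : Fintype.card (Shrink.{0} G) = Fintype.card G := Fintype.card_congr φ.toEquiv
  have h1 := hN (Shrink.{0} G) (by rw [hc]; exact hG) (sylow_congr φ hHP)
  rw [hc, ← numCM_eq, numCM_congr φ] at h1
  exact h1

/-- the sign sums are small compared to the number of complete mappings -/
private theorem small {ε : ℝ} (hε : 0 < ε) : ∃ N : ℕ, ∀ n : ℕ, N ≤ n → ∀ c : ℝ,
    (0.3 : ℝ) ≤ (n : ℝ) ^ n * c / (n.factorial : ℝ) ^ 2 →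
      0 < c ∧ 3 * √((n : ℝ) ^ n) ≤ ε * c := by
  obtain ⟨m, hm⟩ := exists_nat_gt (10 / ε)
  refine ⟨max m 240, fun n hn c h1 => ?_⟩
  have hnm : m ≤ n := (le_max_left _ _).trans hn
  have hn240 : 240 ≤ n := (le_max_right _ _).trans hn
  have hnR : (240 : ℝ) ≤ n := by exact_mod_cast hn240
  have hn0 : (0 : ℝ) < n := by linarith
  have hf0 : (0 : ℝ) < (n.factorial : ℝ) := by positivity
  have he := Real.exp_pos 1
  have he9 := Real.exp_one_lt_d9
  rw [le_div_iff₀ (by positivity)] at h1
  obtain ⟨A, hA⟩ : ∃ A : ℝ, A = (n : ℝ) ^ n := ⟨_, rfl⟩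
  have hA0 : 0 < A := by rw [hA]; positivity
  obtain ⟨s, hs⟩ : ∃ s : ℝ, s = √A := ⟨_, rfl⟩
  have hs0 : 0 < s := by rw [hs]; exact Real.sqrt_pos.2 hA0
  have hss : s * s = A := by rw [hs]; exact Real.mul_self_sqrt hA0.le
  have hc0 : 0 < c := by
    by_contra hcon
    have h2 : (n : ℝ) ^ n * c ≤ 0 := mul_nonpos_of_nonneg_of_nonpos (by positivity)
      (not_lt.1 hcon)
    have h3 : (0 : ℝ) < 0.3 * (n.factorial : ℝ) ^ 2 := by positivity
    linarith
  refine ⟨hc0, ?_⟩
  have hfac : (n : ℝ) ^ n / Real.exp 1 ^ n ≤ (n.factorial : ℝ) := by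
    have h2 := Real.pow_div_factorial_le_exp (n : ℝ) hn0.le n
    have h3 : Real.exp (n : ℝ) = (Real.exp 1) ^ n := by
      rw [← Real.exp_nat_mul, mul_one]
    rw [div_le_iff₀ (by positivity), h3] at h2
    rw [div_le_iff₀ (by positivity)]
    linarith
  have hsn : 2 * Real.exp 1 ^ 2 ≤ √(n : ℝ) := by
    apply Real.le_sqrt_of_sq_le
    have h2 : Real.exp 1 ^ 2 ≤ 7.39 := by nlinarith
    have h3 : 0 < Real.exp 1 ^ 2 := by positivity
    nlinarith
  obtain ⟨E, hE⟩ : ∃ E : ℝ, E = Real.exp 1 ^ n := ⟨_, rfl⟩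
  have hE0 : 0 < E := by rw [hE]; positivity
  have hpow : 2 ^ n * E ^ 2 ≤ s := by
    have h2 : s = (√(n : ℝ)) ^ n := by
      have h4 : A = ((√(n : ℝ)) ^ n) ^ 2 := by
        rw [hA, ← pow_mul, mul_comm n 2, pow_mul, Real.sq_sqrt hn0.le]
      rw [hs, h4, Real.sqrt_sq (by positivity)]
    rw [h2, hE]
    calc (2 : ℝ) ^ n * (Real.exp 1 ^ n) ^ 2 = (2 * Real.exp 1 ^ 2) ^ n := by
          rw [mul_pow, ← pow_mul, ← pow_mul, mul_comm n 2]
      _ ≤ (√(n : ℝ)) ^ n := pow_le_pow_left₀ (by positivity) hsn n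
  have hfac2 : A ^ 2 ≤ (n.factorial : ℝ) ^ 2 * E ^ 2 := by
    rw [← hA, ← hE, div_le_iff₀ hE0] at hfac
    calc A ^ 2 ≤ ((n.factorial : ℝ) * E) ^ 2 := by gcongr
      _ = _ := by ring
  rw [← hA] at h1 ⊢
  rw [← hs]
  -- `A ^ 2 * 0.3 ≤ A * c * E ^ 2`
  have h5 : 0.3 * A ≤ c * E ^ 2 := by
    have h6 : A * (0.3 * A) ≤ A * (c * E ^ 2) := by
      calc A * (0.3 * A) = 0.3 * A ^ 2 := by ring
        _ ≤ 0.3 * ((n.factorial : ℝ) ^ 2 * E ^ 2) := by gcongr
        _ = (0.3 * (n.factorial : ℝ) ^ 2) * E ^ 2 := by ring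
        _ ≤ A * c * E ^ 2 := by gcongr
        _ = A * (c * E ^ 2) := by ring
    exact le_of_mul_le_mul_left h6 hA0
  have h2n : 10 / ε ≤ (2 : ℝ) ^ n := by
    have h7 : (n : ℝ) ≤ (2 : ℝ) ^ n := by exact_mod_cast (Nat.lt_two_pow_self (n := n)).le
    have h8 : (m : ℝ) ≤ n := by exact_mod_cast hnm
    linarith
  rw [div_le_iff₀ hε] at h2n
  -- `10 E² ≤ ε s`
  have h9 : 10 * E ^ 2 ≤ ε * s := by
    calc 10 * E ^ 2 ≤ (2 ^ n * ε) * E ^ 2 := by gcongr
      _ = ε * (2 ^ n * E ^ 2) := by ring
      _ ≤ ε * s := by gcongr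
  have h10 : E ^ 2 * (3 * s) ≤ E ^ 2 * (ε * c) := by
    calc E ^ 2 * (3 * s) = 0.3 * s * (10 * E ^ 2) := by ring
      _ ≤ 0.3 * s * (ε * s) := by gcongr
      _ = ε * (0.3 * A) := by rw [← hss]; ring
      _ ≤ ε * (c * E ^ 2) := by gcongr
      _ = E ^ 2 * (ε * c) := by ring
  exact le_of_mul_le_mul_left h10 (by positivity)

/-- There is `N` such that every finite group `G` of order at least `N` which satisfies the
Hall-Paige condition has `𝒫(G) = {0, 1} × {0, 1}`: all four pairs of parities occur.  Moreover, for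
every `ε > 0`, if such a group `G` is large enough, then the proportion of the complete mappings
with parities `(a, b)` among all complete mappings of `G` (there are some) differs from `1 / 4` by
at most `ε`, for each of the four pairs `(a, b)`. -/
theorem result :
    (∃ N : ℕ, ∀ (G : Type u) [Group G] [Fintype G] [DecidableEq G],
      HallPaige G → N ≤ Fintype.card G → parityPairs G = Set.univ) ∧
    (∀ ε : ℝ, 0 < ε → ∃ N : ℕ, ∀ (G : Type u) [Group G] [Fintype G] [DecidableEq G],
      HallPaige G → N ≤ Fintype.card G →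
        0 < numCM G ∧ ∀ a b : Fin 2, |(numPair G a b : ℝ) / numCM G - 1 / 4| ≤ ε) := by
  have h3 : ∀ ε : ℝ, 0 < ε → ∃ N : ℕ, ∀ (G : Type u) [Group G] [Fintype G] [DecidableEq G],
      HallPaige G → N ≤ Fintype.card G →
        0 < numCM G ∧ ∀ a b : Fin 2, |(numPair G a b : ℝ) / numCM G - 1 / 4| ≤ ε := by
    intro ε hε
    obtain ⟨N₁, h1⟩ := lower.{u}
    obtain ⟨N₂, h2⟩ := small hε
    refine ⟨max N₁ N₂, fun G _ _ _ hHP hG => ?_⟩
    obtain ⟨h4, h5⟩ := h2 _ ((le_max_right _ _).trans hG) _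
      (h1 G hHP ((le_max_left _ _).trans hG))
    refine ⟨by exact_mod_cast h4, fun a b => ?_⟩
    have h6 := count_pair G a b
    have h7 : (numPair G a b : ℝ) / numCM G - 1 / 4 =
        (4 * (numPair G a b : ℝ) - numCM G) / (4 * numCM G) := by
      field_simp
    rw [h7, abs_div, abs_of_pos (show (0 : ℝ) < 4 * numCM G by positivity),
      div_le_iff₀ (by positivity)]
    nlinarith [mul_pos hε h4]
  refine ⟨?_, h3⟩
  obtain ⟨N, hN⟩ := h3 (1 / 8) (by norm_num)
  refine ⟨N, fun G _ _ _ hHP hG => ?_⟩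
  obtain ⟨h4, h5⟩ := hN G hHP hG
  ext ⟨a, b⟩
  simp only [Set.mem_univ, iff_true]
  have h6 : numPair G a b ≠ 0 := by
    intro h0
    have h7 := h5 a b
    rw [h0, Nat.cast_zero, zero_div, zero_sub, abs_neg, abs_of_pos (by norm_num)] at h7
    norm_num at h7
  have h8 : 0 < numPair G a b := Nat.pos_of_ne_zero h6
  unfold numPair at h8
  obtain ⟨⟨f, g, hg, h9, h10⟩⟩ := (Nat.card_pos_iff.1 h8).1
  exact ⟨f, g, hg, by rw [h9, h10]⟩

end Pool.Agent.Results.MP_281388_al.ParityPairs
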